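import Mathlib
import Pool.Agent.Helper126.Lam.Forc
import Pool.Agent.Helper126.Lam.Poset
import Pool.Agent.Helper126.Lam.Cohen
import Pool.Agent.Helper126.Lam.Book
import Pool.Agent.Helper126.Lam.Arith

/-!
# The cardinal `λ*` can be larger than `ℵ₂`

For every uncountable cardinal `κ` of an arbitrary ground model there is a forcing notion with
the countable chain condition such that `λ* = κ⁺` in the extension. In particular `λ* = ℵ₃` holds
in the extension for `κ = ℵ₂`.
-/

namespace Pool.Agent.Results.MP_0dd0cc_lc.LambdaStar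

open Cardinal Pool.Agent.Helper126.Lam.Forc

/-- The countable chain condition: pairwise incompatible conditions form a countable set. -/
def CCC (P : Type) [Preorder P] : Prop :=
  ∀ A : Set P, (∀ a ∈ A, ∀ b ∈ A, (∃ s, s ≤ a ∧ s ≤ b) → a = b) → A.Countable

/-- Every uncountable cardinal of the ground model is a cardinal of the extension: no function
from a set of smaller ground model cardinality `μ` to `ν` is onto. -/
def CardinalsPreserved (P : Type) [Preorder P] : Set P :=
  fall fun μ : Cardinal.{0} => fall fun ν : Cardinal.{0} => fall fun _ : μ < ν =>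
    fall fun _ : ℵ₀ < ν =>
      fnot (fex fun R : μ.out → ν.out → Set P =>
        fand (IsFun R) (fall fun y => fex fun x => meets (R x y)))

/-- In the extension some family of ladder system colourings indexed by `E` is bad. -/
def SomeBadFamily (P : Type) [Preorder P] (E : Type) : Set P :=
  fex fun F : E → K1 → K1 → ℕ → Set P =>
    fand (fall fun e => IsLadderColouring (F e)) (fnot (NotBad F))

/-- In the extension `λ*` exists and is equal to `ν`: some family of ladder system colourings
indexed by `ν` is bad, and no family indexed by a smaller cardinal is bad. -/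
def LambdaStarIs (P : Type) [Preorder P] (ν : Cardinal.{0}) : Set P :=
  fand (SomeBadFamily P ν.out)
    (fall fun μ : Cardinal.{0} => fall fun _ : μ < ν => fnot (SomeBadFamily P μ.out))

open Pool.Agent.Helper126.Lam.Poset in
theorem result :
    (∀ κ : Cardinal.{0}, ℵ_ 1 ≤ κ →
      ∃ (P : Type) (_ : Preorder P), Nonempty P ∧ CCC P ∧
        ∀ p : P, p ∈ CardinalsPreserved P ∧ p ∈ LambdaStarIs P (Order.succ κ)) ∧
    ∃ (P : Type) (_ : Preorder P), Nonempty P ∧ CCC P ∧
      ∀ p : P, p ∈ CardinalsPreserved P ∧ p ∈ LambdaStarIs P (ℵ_ 3) := by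
  have main : ∀ κ : Cardinal.{0}, ℵ_ 1 ≤ κ →
      ∃ (P : Type) (_ : Preorder P), Nonempty P ∧ CCC P ∧
        ∀ p : P, p ∈ CardinalsPreserved P ∧ p ∈ LambdaStarIs P (Order.succ κ) := by
    intro κ hκ
    have hκ0 : ℵ₀ ≤ κ := (aleph0_le_aleph 1).trans hκ
    have hreg : (Order.succ κ).IsRegular := isRegular_succ hκ0
    let J : Type := (Order.succ κ).ord.ToType
    have hJ : #J = Order.succ κ := by
      show #((Order.succ κ).ord.ToType) = _
      rw [mk_toType, card_ord]
    have hcof : ∀ S : Set J, #S ≤ κ → ∃ b, ∀ s ∈ S, s < b := by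
      intro S hS
      by_contra hcon
      push Not at hcon
      have h1 : IsCofinal S := fun b => by
        obtain ⟨s, hs, hb⟩ := hcon b
        exact ⟨s, hs, hb⟩
      have h2 := Order.cof_le h1
      rw [Ordinal.cof_toType, hreg.cof_ord] at h2
      exact absurd (h2.trans hS) (not_le.2 (Order.lt_succ _))
    obtain ⟨g, hg⟩ := Pool.Agent.Helper126.Lam.Arith.exists_book J
      (hκ.trans ((Order.le_succ κ).trans hJ.ge))
    refine ⟨Cd g, inferInstance, inferInstance, ?_, fun p => ⟨?_, ?_, ?_⟩⟩
    · intro A hA
      by_contra hcon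
      obtain ⟨a, b, hne, s, hs1, hs2⟩ :=
        Pool.Agent.Helper126.Lam.Ccc.cond_ccc (fun a : A => (a : Cd g)) hcon
      exact hne (Subtype.ext (hA a a.2 b b.2 ⟨s, hs1, hs2⟩))
    · intro μ ν hμν hν
      exact Pool.Agent.Helper126.Lam.Arith.not_onto (by simpa using hμν) (by simpa using hν) p
    · have e : (Order.succ κ).out ≃ J := by
        have : #((Order.succ κ).out) = #J := by rw [mk_out, hJ]
        exact (Cardinal.eq.1 this).some
      refine mem_fex.2 fun q _ => ⟨q, le_rfl,
        fun x => Pool.Agent.Helper126.Lam.Cohen.fC g (e x), fun x =>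
          Pool.Agent.Helper126.Lam.Cohen.isLadder (e x) q, ?_⟩
      have h1 := Pool.Agent.Helper126.Lam.Cohen.bad (g := g) hκ hcof q
      have h2 : NotBad (fun x => Pool.Agent.Helper126.Lam.Cohen.fC g (e x)) =
          NotBad (Pool.Agent.Helper126.Lam.Cohen.fC g : J → K1 → K1 → ℕ → Set (Cd g)) := by
        unfold NotBad
        congr 1
        funext lt
        congr 1
        funext ht
        congr 1
        ext r
        exact ⟨fun h j => by simpa using h (e.symm j), fun h x => h (e x)⟩
      rw [h2]
      exact h1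
    · intro μ hμ q _ hq
      obtain ⟨r, _, F, hF, hbad⟩ := mem_fex.1 hq q le_rfl
      exact hbad r le_rfl (Pool.Agent.Helper126.Lam.Book.notBad hκ hcof hg
        (by simpa using Order.lt_succ_iff.1 hμ) F r hF)
  refine ⟨main, ?_⟩
  have h3 : Order.succ (ℵ_ 2) = ℵ_ 3 := by
    rw [Cardinal.succ_aleph]
    congr 1
  rw [← h3]
  exact main (ℵ_ 2) (aleph_le_aleph.2 (by norm_num))

end Pool.Agent.Results.MP_0dd0cc_lc.LambdaStar
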